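import Pool.Agent.H10.BL.Stmts
import Pool.Agent.H93.BT.Divb

/-!
# BL: AEN, additive energy of powers
-/

set_option autoImplicit false

namespace Pool.BL

open Finset

lemma aen_mono {m b b' : ℤ} (hm : 0 < m) (hb : 0 ≤ b) (h : b < b') (e : ℕ) :
    (b + m) ^ e - b ^ e ≤ (b' + m) ^ e - b' ^ e := by
  have hb' : 0 ≤ b' := by omega
  induction e with
  | zero => simp
  | succ e ih =>
    have f0 : b' ^ e ≤ (b' + m) ^ e := pow_le_pow_left₀ hb' (by omega) e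
    have f1 : (b + m) ^ e ≤ (b' + m) ^ e := pow_le_pow_left₀ (by omega) (by omega) e
    have e1 : (b + m) ^ (e + 1) - b ^ (e + 1) = b * ((b + m) ^ e - b ^ e) + m * (b + m) ^ e := by
      ring
    have e2 : (b' + m) ^ (e + 1) - b' ^ (e + 1) =
        b' * ((b' + m) ^ e - b' ^ e) + m * (b' + m) ^ e := by ring
    rw [e1, e2]
    have g1 := mul_le_mul_of_nonneg_left ih hb
    have g2 := mul_le_mul_of_nonneg_right h.le (sub_nonneg.2 f0)
    have g3 := mul_le_mul_of_nonneg_left f1 hm.le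
    linarith

lemma aen_strict {m b b' : ℤ} (hm : 0 < m) (hb : 0 ≤ b) (h : b < b') (e : ℕ) (he : 2 ≤ e) :
    (b + m) ^ e - b ^ e < (b' + m) ^ e - b' ^ e := by
  have hb' : 0 ≤ b' := by omega
  obtain ⟨k, rfl⟩ := Nat.exists_eq_add_of_le he
  have e1 : (b + m) ^ (2 + k) - b ^ (2 + k) =
      b * ((b + m) ^ (1 + k) - b ^ (1 + k)) + m * (b + m) ^ (1 + k) := by ring
  have e2 : (b' + m) ^ (2 + k) - b' ^ (2 + k) =
      b' * ((b' + m) ^ (1 + k) - b' ^ (1 + k)) + m * (b' + m) ^ (1 + k) := by ring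
  have f0 : b' ^ (1 + k) ≤ (b' + m) ^ (1 + k) := pow_le_pow_left₀ hb' (by omega) _
  have f1 : (b + m) ^ (1 + k) < (b' + m) ^ (1 + k) :=
    pow_lt_pow_left₀ (by omega) (by omega) (by omega)
  have g1 := mul_le_mul_of_nonneg_left (aen_mono hm hb h (1 + k)) hb
  have g2 := mul_le_mul_of_nonneg_right h.le (sub_nonneg.2 f0)
  have g3 := mul_lt_mul_of_pos_left f1 hm
  rw [e1, e2]
  linarith

/-- The quadruples. -/
def aenS (e N : ℕ) : Finset ((ℕ × ℕ) × (ℕ × ℕ)) :=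
  ((Icc 1 N ×ˢ Icc 1 N) ×ˢ (Icc 1 N ×ˢ Icc 1 N)).filter
    (fun z : (ℕ × ℕ) × (ℕ × ℕ) => z.1.1 ^ e + z.1.2 ^ e = z.2.1 ^ e + z.2.2 ^ e)

lemma aen_mem {e N : ℕ} {z : (ℕ × ℕ) × (ℕ × ℕ)} : z ∈ aenS e N ↔
    (((1 ≤ z.1.1 ∧ z.1.1 ≤ N) ∧ (1 ≤ z.1.2 ∧ z.1.2 ≤ N)) ∧
      ((1 ≤ z.2.1 ∧ z.2.1 ≤ N) ∧ (1 ≤ z.2.2 ∧ z.2.2 ≤ N))) ∧
      z.1.1 ^ e + z.1.2 ^ e = z.2.1 ^ e + z.2.2 ^ e := by
  unfold aenS
  simp only [Finset.mem_filter, Finset.mem_product, Finset.mem_Icc]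

lemma aen_half (e N : ℕ) (he : 2 ≤ e) :
    ((aenS e N).filter (fun z => z.2.1 < z.1.1)).card ≤
      ∑ q ∈ (Icc 1 N ×ˢ Icc 1 N).filter (fun q => q.2 < q.1),
        (q.1 ^ e - q.2 ^ e).divisors.card := by
  classical
  have he0 : e ≠ 0 := by omega
  rw [← Finset.card_sigma]
  refine Finset.card_le_card_of_injOn
    (fun z => (⟨(z.1.1, z.2.1), z.2.2 - z.1.2⟩ : Σ _ : ℕ × ℕ, ℕ)) ?_ ?_
  · intro z hz
    have hz' := Finset.mem_filter.mp (Finset.mem_coe.mp hz)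
    obtain ⟨hz1, hlt⟩ := hz'
    rw [aen_mem] at hz1
    obtain ⟨⟨⟨ha, hb⟩, ⟨hc, hd⟩⟩, heq⟩ := hz1
    have hpow : z.2.1 ^ e < z.1.1 ^ e := Nat.pow_lt_pow_left hlt he0
    rw [Finset.mem_coe, Finset.mem_sigma, Finset.mem_filter, Finset.mem_product, Finset.mem_Icc,
      Finset.mem_Icc, Nat.mem_divisors]
    refine ⟨⟨⟨ha, hc⟩, hlt⟩, ?_, ?_⟩
    · show z.2.2 - z.1.2 ∣ z.1.1 ^ e - z.2.1 ^ e
      have h1 : z.1.1 ^ e - z.2.1 ^ e = z.2.2 ^ e - z.1.2 ^ e := by omega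
      rw [h1]
      exact Nat.sub_dvd_pow_sub_pow _ _ _
    · show z.1.1 ^ e - z.2.1 ^ e ≠ 0
      omega
  · intro z hz z' hz' hzz
    have hz1 := Finset.mem_filter.mp (Finset.mem_coe.mp hz)
    have hz2 := Finset.mem_filter.mp (Finset.mem_coe.mp hz')
    obtain ⟨h1, hlt⟩ := hz1
    obtain ⟨h2, hlt'⟩ := hz2
    rw [aen_mem] at h1 h2
    obtain ⟨-, heq⟩ := h1
    obtain ⟨-, heq'⟩ := h2
    obtain ⟨⟨a, b⟩, ⟨c, d⟩⟩ := z
    obtain ⟨⟨a', b'⟩, ⟨c', d'⟩⟩ := z'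
    simp only [Sigma.mk.injEq, Prod.mk.injEq, heq_eq_eq] at hzz
    dsimp only at heq heq' hlt hlt'
    obtain ⟨⟨rfl, rfl⟩, hm⟩ := hzz
    have hpow : c ^ e < a ^ e := Nat.pow_lt_pow_left hlt he0
    have hbd : b < d := by
      by_contra hcon
      push Not at hcon
      have := Nat.pow_le_pow_left hcon e
      omega
    have hbd' : b' < d' := by
      by_contra hcon
      push Not at hcon
      have := Nat.pow_le_pow_left hcon e
      omega
    obtain ⟨m, rfl⟩ := Nat.exists_eq_add_of_le hbd.le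
    obtain ⟨m', rfl⟩ := Nat.exists_eq_add_of_le hbd'.le
    have hmm : m = m' := by omega
    subst hmm
    have hm0 : (0 : ℤ) < m := by omega
    have e1 : ((b : ℤ) + m) ^ e - (b : ℤ) ^ e = (a : ℤ) ^ e - (c : ℤ) ^ e := by
      have : (a : ℤ) ^ e + (b : ℤ) ^ e = (c : ℤ) ^ e + ((b : ℤ) + m) ^ e := by exact_mod_cast heq
      linarith
    have e2 : ((b' : ℤ) + m) ^ e - (b' : ℤ) ^ e = (a : ℤ) ^ e - (c : ℤ) ^ e := by
      have : (a : ℤ) ^ e + (b' : ℤ) ^ e = (c : ℤ) ^ e + ((b' : ℤ) + m) ^ e := by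
        exact_mod_cast heq'
      linarith
    have hbb : b = b' := by
      rcases lt_trichotomy b b' with h | h | h
      · exfalso
        have := aen_strict hm0 (Int.natCast_nonneg b) (Int.ofNat_lt.mpr h) e he
        rw [e1, e2] at this
        exact lt_irrefl _ this
      · exact h
      · exfalso
        have := aen_strict hm0 (Int.natCast_nonneg b') (Int.ofNat_lt.mpr h) e he
        rw [e1, e2] at this
        exact lt_irrefl _ this
    subst hbb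
    rfl

lemma aen_card (e N : ℕ) (he : 2 ≤ e) :
    (aenS e N).card ≤ N * N + 2 * ∑ q ∈ (Icc 1 N ×ˢ Icc 1 N).filter (fun q => q.2 < q.1),
        (q.1 ^ e - q.2 ^ e).divisors.card := by
  classical
  have he0 : e ≠ 0 := by omega
  have h1 := aen_half e N he
  have h2 : ((aenS e N).filter (fun z => z.1.1 < z.2.1)).card ≤
      ((aenS e N).filter (fun z => z.2.1 < z.1.1)).card := by
    refine Finset.card_le_card_of_injOn Prod.swap ?_ (Prod.swap_injective.injOn)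
    intro z hz
    have hz' := Finset.mem_filter.mp (Finset.mem_coe.mp hz)
    obtain ⟨hz1, hlt⟩ := hz'
    rw [aen_mem] at hz1
    rw [Finset.mem_coe, Finset.mem_filter, aen_mem]
    exact ⟨⟨⟨hz1.1.2, hz1.1.1⟩, hz1.2.symm⟩, hlt⟩
  have h3 : ((aenS e N).filter (fun z => z.1.1 = z.2.1)).card ≤ N * N := by
    have h4 : (Icc 1 N ×ˢ Icc 1 N).card = N * N := by
      rw [Finset.card_product, Nat.card_Icc, Nat.add_sub_cancel]
    rw [← h4]
    refine Finset.card_le_card_of_injOn (fun z => z.1) ?_ ?_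
    · intro z hz
      have hz' := Finset.mem_filter.mp (Finset.mem_coe.mp hz)
      obtain ⟨hz1, -⟩ := hz'
      rw [aen_mem] at hz1
      rw [Finset.mem_coe, Finset.mem_product, Finset.mem_Icc, Finset.mem_Icc]
      exact hz1.1.1
    · intro z hz z' hz' hzz
      have hz1 := Finset.mem_filter.mp (Finset.mem_coe.mp hz)
      have hz2 := Finset.mem_filter.mp (Finset.mem_coe.mp hz')
      obtain ⟨h1, hlt⟩ := hz1
      obtain ⟨h2, hlt'⟩ := hz2
      rw [aen_mem] at h1 h2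
      obtain ⟨-, heq⟩ := h1
      obtain ⟨-, heq'⟩ := h2
      obtain ⟨⟨a, b⟩, ⟨c, d⟩⟩ := z
      obtain ⟨⟨a', b'⟩, ⟨c', d'⟩⟩ := z'
      dsimp only at heq heq' hlt hlt' hzz
      obtain ⟨rfl, rfl⟩ := Prod.mk.inj hzz
      subst hlt
      subst hlt'
      have e1 : b ^ e = d ^ e := by omega
      have e2 : b ^ e = d' ^ e := by omega
      have e3 : b = d := Nat.pow_left_injective he0 e1
      have e4 : b = d' := Nat.pow_left_injective he0 e2
      subst e3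
      subst e4
      rfl
  have h5 : aenS e N = (aenS e N).filter (fun z => z.1.1 = z.2.1) ∪
      ((aenS e N).filter (fun z => z.1.1 < z.2.1) ∪
        (aenS e N).filter (fun z => z.2.1 < z.1.1)) := by
    ext z
    simp only [Finset.mem_union, Finset.mem_filter]
    have := lt_trichotomy z.1.1 z.2.1
    tauto
  have h6 := Finset.card_union_le ((aenS e N).filter (fun z => z.1.1 = z.2.1))
      ((aenS e N).filter (fun z => z.1.1 < z.2.1) ∪
        (aenS e N).filter (fun z => z.2.1 < z.1.1))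
  have h7 := Finset.card_union_le ((aenS e N).filter (fun z => z.1.1 < z.2.1))
    ((aenS e N).filter (fun z => z.2.1 < z.1.1))
  rw [← h5] at h6
  omega

theorem aen_thm : S_AEN := by
  intro J ε hε
  obtain ⟨C, hC1, hC⟩ := Pool.Agent.H93.BT.divisor_bound (ε / (J + 1)) (by positivity)
  refine ⟨1 + 2 * C, by linarith, ?_⟩
  intro e N he heJ hN
  have hN1 : (1 : ℝ) ≤ N := by exact_mod_cast hN
  have hN0 : (0 : ℝ) < N := by linarith
  have hJ0 : (0 : ℝ) < (J : ℝ) + 1 := by positivity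
  have h1 := aen_card e N he
  have h2 : (((aenS e N).card : ℕ) : ℝ) ≤ (N : ℝ) * N +
      2 * ∑ q ∈ (Icc 1 N ×ˢ Icc 1 N).filter (fun q => q.2 < q.1),
        ((q.1 ^ e - q.2 ^ e).divisors.card : ℝ) := by exact_mod_cast h1
  have h3 : ∀ q ∈ (Icc 1 N ×ˢ Icc 1 N).filter (fun q : ℕ × ℕ => q.2 < q.1),
      ((q.1 ^ e - q.2 ^ e).divisors.card : ℝ) ≤ C * (N : ℝ) ^ ε := by
    intro q hq
    rw [Finset.mem_filter, Finset.mem_product, Finset.mem_Icc, Finset.mem_Icc] at hq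
    obtain ⟨⟨hq1, hq2⟩, hq3⟩ := hq
    have hpow : q.2 ^ e < q.1 ^ e := Nat.pow_lt_pow_left hq3 (by omega)
    refine (hC _ (by omega)).trans ?_
    refine mul_le_mul_of_nonneg_left ?_ (by linarith)
    have h4 : ((q.1 ^ e - q.2 ^ e : ℕ) : ℝ) ≤ (N : ℝ) ^ e := by
      have h5 : q.1 ^ e - q.2 ^ e ≤ N ^ e :=
        (Nat.sub_le _ _).trans (Nat.pow_le_pow_left hq1.2 e)
      exact_mod_cast h5
    calc ((q.1 ^ e - q.2 ^ e : ℕ) : ℝ) ^ (ε / (J + 1)) ≤ ((N : ℝ) ^ e) ^ (ε / (J + 1)) :=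
          Real.rpow_le_rpow (Nat.cast_nonneg _) h4 (by positivity)
      _ = (N : ℝ) ^ ((e : ℝ) * (ε / (J + 1))) := by
          rw [← Real.rpow_natCast, ← Real.rpow_mul hN0.le]
      _ ≤ (N : ℝ) ^ ε := by
          refine Real.rpow_le_rpow_of_exponent_le hN1 ?_
          have h6 : (e : ℝ) ≤ J + 1 := by
            have : (e : ℝ) ≤ J := by exact_mod_cast heJ
            linarith
          rw [← mul_div_assoc, div_le_iff₀ hJ0]
          nlinarith
  have h4 := Finset.sum_le_sum h3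
  rw [Finset.sum_const, nsmul_eq_mul] at h4
  have h5 : (((Icc 1 N ×ˢ Icc 1 N).filter (fun q : ℕ × ℕ => q.2 < q.1)).card : ℝ) ≤
      (N : ℝ) * N := by
    have h6 : ((Icc 1 N ×ˢ Icc 1 N).filter (fun q : ℕ × ℕ => q.2 < q.1)).card ≤ N * N := by
      refine (Finset.card_filter_le _ _).trans ?_
      rw [Finset.card_product, Nat.card_Icc, Nat.add_sub_cancel]
    exact_mod_cast h6
  have hNe : (1 : ℝ) ≤ (N : ℝ) ^ ε := Real.one_le_rpow hN1 hε.le
  have h7 : (N : ℝ) ^ (2 + ε) = (N : ℝ) * N * (N : ℝ) ^ ε := by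
    rw [Real.rpow_add hN0, Real.rpow_two]
    ring
  have h8 : (((Icc 1 N ×ˢ Icc 1 N).filter (fun q : ℕ × ℕ => q.2 < q.1)).card : ℝ) *
      (C * (N : ℝ) ^ ε) ≤ (N : ℝ) * N * (C * (N : ℝ) ^ ε) :=
    mul_le_mul_of_nonneg_right h5 (by positivity)
  have h9 : (N : ℝ) * N ≤ (N : ℝ) * N * (N : ℝ) ^ ε :=
    le_mul_of_one_le_right (by positivity) hNe
  show (((aenS e N).card : ℕ) : ℝ) ≤ (1 + 2 * C) * (N : ℝ) ^ (2 + ε)
  rw [h7]
  nlinarith

end Pool.BL
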