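import Pool.Agent.H10.BL.Stmts

/-!
# BL: SUB, subset sums
-/

set_option autoImplicit false

namespace Pool.BL

open Finset

theorem sub_thm : S_SUB := by
  intro s f θ ρ hf hθ hρ hs
  classical
  have hne : (s.powerset.filter fun K => θ ≤ ∑ e ∈ K, f e).Nonempty :=
    ⟨s, Finset.mem_filter.mpr ⟨Finset.mem_powerset_self s, hs⟩⟩
  obtain ⟨K, hK, hm⟩ := Finset.exists_min_image _ Finset.card hne
  rw [Finset.mem_filter, Finset.mem_powerset] at hK
  obtain ⟨hKs, hK1⟩ := hK
  by_cases h : ∑ e ∈ K, f e ≤ ρ
  · exact ⟨K, hKs, hK1, h⟩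
  · push Not at h
    have hKne : K.Nonempty := by
      rw [Finset.nonempty_iff_ne_empty]
      rintro rfl
      rw [Finset.sum_empty] at h
      linarith
    obtain ⟨e, he⟩ := hKne
    have h1 : ∑ x ∈ K.erase e, f x < θ := by
      by_contra hh
      push Not at hh
      have h3 := hm (K.erase e) (Finset.mem_filter.mpr
        ⟨Finset.mem_powerset.mpr ((Finset.erase_subset e K).trans hKs), hh⟩)
      have h4 := Finset.card_erase_lt_of_mem he
      omega
    have h2 := Finset.sum_erase_add K f he
    have h5 := hf e (hKs he)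
    refine ⟨{e}, Finset.singleton_subset_iff.mpr (hKs he), ?_, ?_⟩
    · rw [Finset.sum_singleton]
      linarith
    · rw [Finset.sum_singleton]
      exact h5.2

end Pool.BL
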